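import Pool.Agent.Helper95.PN.Stmts
import Pool.Agent.Helper62.PM.BINM

/-!
# Row BINJ (as BINM, from PINS)
-/

set_option autoImplicit false

namespace Pool.Agent.Helper95.PW

open MeasureTheory Filter

theorem st_BINJ (_ : ST_QHM) (hPAN : ST_PAN) (hSTB : ST_STB) (hKIN : ST_KINM) (hPOE : ST_POE)
    (hPIN : ST_PINS) (hINT : ST_INTM) : ST_BINJ := by
  obtain ⟨C1, hC1, H1⟩ := hKIN
  obtain ⟨C2, hC2, H2⟩ := hPOE
  obtain ⟨C3, hC3, H3⟩ := hPIN
  refine ⟨3 * C1 + 3 * C2 + C3, by positivity, ?_⟩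
  intro n M X Z E g K R B s0 S u hZ hg hR hs0 hS g2 g1 hu hB
  have id : ∀ m, QM X Z (fun s => Pg (g m) (u s)) - E * sq (fun s => Pg (g m) (u s)) =
      -(∑ s, ∫ x, Pg (g m) (Pg (g m) (u s)) x * (hmM X Z (u s) x - E * u s x)) +
      ((kin (fun s => Pg (g m) (u s)) -
        (∑ s, ∫ x, Pg (g m) (Pg (g m) (u s)) x * ∑ k, ∑ i, dv k i (dv k i (u s)) x)) +
      (pair (fun s => Pg (g m) (u s)) +
        (∑ s, ∫ x, rep x * (Pg (g m) (Pg (g m) (u s)) x * u s x))) -
      ∑ j, Z j * (one (fun y => 1 / nr (y - X j)) (fun s => Pg (g m) (u s)) +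
        (∑ s, ∫ x, (∑ k, 1 / nr (x k - X j)) * (Pg (g m) (Pg (g m) (u s)) x * u s x)))) := by
    intro m
    have := binm_id hPAN hSTB hINT n M X Z E (g m) (hg m).sm u hu
    linarith
  have a1 : ∀ m, kin (fun s => Pg (g m) (u s)) -
      (∑ s, ∫ x, Pg (g m) (Pg (g m) (u s)) x * ∑ k, ∑ i, dv k i (dv k i (u s)) x) ≤
      C1 * K ^ 2 * (kin u / R ^ 2 + one (ind S) u / R ^ 4) :=
    fun m => H1 n (g m) K R S u (hg m) hR hS (g2 m) hu
  have a2 : ∀ m, pair (fun s => Pg (g m) (u s)) +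
      (∑ s, ∫ x, rep x * (Pg (g m) (Pg (g m) (u s)) x * u s x)) ≤
      C2 * K ^ 2 / R ^ 2 * pair u := fun m => H2 n (g m) K R u (hg m) hR hu
  have p1 := bin_kin u
  have p2 := bin_pair u
  have p3 : 0 ≤ one (pot X Z) u := bin_one _ (binm_pot_nonneg X Z hZ) u
  have p4 : 0 ≤ one (ind S) u := bin_one _ (binm_ind _) u
  have hO := binm_one hINT n M X Z u hu
  rw [Finset.sum_congr rfl fun m _ => id m, Finset.sum_add_distrib, Finset.sum_neg_distrib]
  have h4 : ∑ m : Fin 3, ((kin (fun s => Pg (g m) (u s)) -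
        (∑ s, ∫ x, Pg (g m) (Pg (g m) (u s)) x * ∑ k, ∑ i, dv k i (dv k i (u s)) x)) +
      (pair (fun s => Pg (g m) (u s)) +
        (∑ s, ∫ x, rep x * (Pg (g m) (Pg (g m) (u s)) x * u s x))) -
      ∑ j, Z j * (one (fun y => 1 / nr (y - X j)) (fun s => Pg (g m) (u s)) +
        (∑ s, ∫ x, (∑ k, 1 / nr (x k - X j)) * (Pg (g m) (Pg (g m) (u s)) x * u s x)))) ≤
      3 * (C1 * K ^ 2 * (kin u / R ^ 2 + one (ind S) u / R ^ 4)) +
      3 * (C2 * K ^ 2 / R ^ 2 * pair u) +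
      (C3 * K ^ 2 / R ^ 2 * one (pot X Z) u + B / 2) := by
    rw [Finset.sum_sub_distrib, Finset.sum_add_distrib]
    have b1 : ∑ m : Fin 3, (kin (fun s => Pg (g m) (u s)) -
        (∑ s, ∫ x, Pg (g m) (Pg (g m) (u s)) x * ∑ k, ∑ i, dv k i (dv k i (u s)) x)) ≤
        3 * (C1 * K ^ 2 * (kin u / R ^ 2 + one (ind S) u / R ^ 4)) := by
      refine (Finset.sum_le_sum fun m _ => a1 m).trans ?_
      simp
    have b2 : ∑ m : Fin 3, (pair (fun s => Pg (g m) (u s)) +
        (∑ s, ∫ x, rep x * (Pg (g m) (Pg (g m) (u s)) x * u s x))) ≤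
        3 * (C2 * K ^ 2 / R ^ 2 * pair u) := by
      refine (Finset.sum_le_sum fun m _ => a2 m).trans ?_
      simp
    have b3 : -(∑ m : Fin 3, ∑ j, Z j *
        (one (fun y => 1 / nr (y - X j)) (fun s => Pg (g m) (u s)) +
        (∑ s, ∫ x, (∑ k, 1 / nr (x k - X j)) * (Pg (g m) (Pg (g m) (u s)) x * u s x)))) ≤
        C3 * K ^ 2 / R ^ 2 * one (pot X Z) u + B / 2 := by
      rw [Finset.sum_comm, ← Finset.sum_neg_distrib, hO]
      refine le_of_forall_pos_le_add fun ε hε => ?_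
      have hSZ : 0 ≤ ∑ j, Z j := Finset.sum_nonneg fun j _ => hZ j
      have hε' : 0 < ε / (∑ j, Z j + 1) := by positivity
      have a3 := fun j => H3 n g K R (ε / (∑ j, Z j + 1)) (X j) u hg hR
        (fun m y => g1 m j y) hu hε'
      choose J hJ using a3
      obtain ⟨N, hN⟩ : ∃ N : ℕ, N = max (Finset.univ.sup J) ⌈1 / s0⌉₊ := ⟨_, rfl⟩
      have hN1 : ∀ j, J j ≤ N := fun j => by
        rw [hN]
        exact (Finset.le_sup (Finset.mem_univ j)).trans (le_max_left _ _)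
      have hN2 : 1 / ((N : ℝ) + 1) ≤ s0 := by
        have h1 : 1 / s0 ≤ (N : ℝ) + 1 := by
          have h2 : (⌈1 / s0⌉₊ : ℝ) ≤ N := by
            rw [hN]
            exact_mod_cast le_max_right _ _
          have h3 := Nat.le_ceil (1 / s0)
          linarith
        rw [div_le_iff₀ (by positivity)]
        rw [div_le_iff₀ hs0] at h1
        linarith
      have hmor := hB (1 / ((N : ℝ) + 1)) (by positivity) hN2
      have h6 : ∑ j, -(∑ m : Fin 3, Z j *
          (one (fun y => 1 / nr (y - X j)) (fun s => Pg (g m) (u s)) +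
          (∑ s, ∫ x, (∑ k, 1 / nr (x k - X j)) *
            (Pg (g m) (Pg (g m) (u s)) x * u s x)))) ≤
          ∑ j, Z j * (C3 * K ^ 2 / R ^ 2 * one (fun y => 1 / nr (y - X j)) u +
            one (fun y => mor (1 / ((N : ℝ) + 1)) (y - X j)) u / 2 +
            ε / (∑ j, Z j + 1)) := by
        refine Finset.sum_le_sum fun j _ => ?_
        have := mul_le_mul_of_nonneg_left (hJ j N (hN1 j)) (hZ j)
        rw [mul_neg] at this
        rw [← Finset.mul_sum]
        exact this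
      refine h6.trans ?_
      have h7 : ∑ j, Z j * (C3 * K ^ 2 / R ^ 2 * one (fun y => 1 / nr (y - X j)) u +
            one (fun y => mor (1 / ((N : ℝ) + 1)) (y - X j)) u / 2 +
            ε / (∑ j, Z j + 1)) =
          C3 * K ^ 2 / R ^ 2 * (∑ j, Z j * one (fun y => 1 / nr (y - X j)) u) +
          (∑ j, Z j * one (fun y => mor (1 / ((N : ℝ) + 1)) (y - X j)) u) / 2 +
          (∑ j, Z j) * (ε / (∑ j, Z j + 1)) := by
        rw [Finset.mul_sum, Finset.sum_div, Finset.sum_mul, ← Finset.sum_add_distrib,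
          ← Finset.sum_add_distrib]
        refine Finset.sum_congr rfl fun j _ => ?_
        ring
      have h8 : (∑ j, Z j) * (ε / (∑ j, Z j + 1)) ≤ ε := by
        rw [← mul_div_assoc, div_le_iff₀ (by positivity)]
        nlinarith
      rw [h7]
      linarith
    linarith
  have h5 : 3 * (C1 * K ^ 2 * (kin u / R ^ 2 + one (ind S) u / R ^ 4)) +
      3 * (C2 * K ^ 2 / R ^ 2 * pair u) +
      (C3 * K ^ 2 / R ^ 2 * one (pot X Z) u + B / 2) ≤
      (3 * C1 + 3 * C2 + C3) * K ^ 2 *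
        ((kin u + pair u + one (pot X Z) u) / R ^ 2 + one (ind S) u / R ^ 4) +
        B / 2 := by
    have q1 : 0 ≤ K ^ 2 * (kin u / R ^ 2) := by positivity
    have q2 : 0 ≤ K ^ 2 * (pair u / R ^ 2) := by positivity
    have q3 : 0 ≤ K ^ 2 * (one (pot X Z) u / R ^ 2) := by positivity
    have q4 : 0 ≤ K ^ 2 * (one (ind S) u / R ^ 4) := by positivity
    have e : (3 * C1 + 3 * C2 + C3) * K ^ 2 *
        ((kin u + pair u + one (pot X Z) u) / R ^ 2 + one (ind S) u / R ^ 4) +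
        B / 2 -
        (3 * (C1 * K ^ 2 * (kin u / R ^ 2 + one (ind S) u / R ^ 4)) +
      3 * (C2 * K ^ 2 / R ^ 2 * pair u) +
      (C3 * K ^ 2 / R ^ 2 * one (pot X Z) u + B / 2)) =
        (3 * C2 + C3) * (K ^ 2 * (kin u / R ^ 2)) + (3 * C1 + C3) * (K ^ 2 * (pair u / R ^ 2)) +
        (3 * C1 + 3 * C2) * (K ^ 2 * (one (pot X Z) u / R ^ 2)) +
        (3 * C2 + C3) * (K ^ 2 * (one (ind S) u / R ^ 4)) := by
      ring
    have : 0 ≤ (3 * C2 + C3) * (K ^ 2 * (kin u / R ^ 2)) +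
        (3 * C1 + C3) * (K ^ 2 * (pair u / R ^ 2)) +
        (3 * C1 + 3 * C2) * (K ^ 2 * (one (pot X Z) u / R ^ 2)) +
        (3 * C2 + C3) * (K ^ 2 * (one (ind S) u / R ^ 4)) := by
      positivity
    linarith
  linarith

end Pool.Agent.Helper95.PW
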